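import Mathlib
import Pool.Agent.U280.SmallSol.Main

set_option autoImplicit false

/-!
# MP_80f852_al: small integer solutions of systems of equations `z_i = 1`, `z_i + z_j = z_k`

The answer to Q1 is positive: the sharp bound `2 ^ (n - 1)` holds for integer tuples.

Proof. Let `U = {i | x i = 1}`; if `U` is empty take `y = 0`. Otherwise the equations form a linear
system `A y = b` in the at most `n - 1` unknowns `y i`, `i ∉ U`, with the integer solution `x`. All
rows of `(A, b)` are, up to the sign of the last column, of the form `e_p + e_q - e_s`, that is the
sum of the two rows `e_p - e_s` and `e_q`; the determinant of a matrix with rows which are unit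
vectors or differences of unit vectors is `-1`, `0` or `1`, so all minors of `(A, b)` of order `m`
are at most `2 ^ m`. Finally a system of rank `m` which has an integer solution has one which is
bounded by the minors of order `m` of the augmented matrix (theorem of Borosh, Flahive, Rubin and
Treybig, proved in `Pool.Agent.U280.SmallSol.Bound`).
-/

namespace Pool.Agent.Results.MP_80f852_al.SmallSolution

/-- **Q1 holds.** For every `n ≥ 1` and every integer tuple `x` there is an integer tuple `y` with
`|y i| ≤ 2 ^ (n - 1)` that satisfies every equation `z i = 1` and `z i + z j = z k` which `x`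
satisfies. -/
theorem result (n : ℕ) (_hn : 1 ≤ n) (x : Fin n → ℤ) :
    ∃ y : Fin n → ℤ, (∀ i, |y i| ≤ 2 ^ (n - 1)) ∧ (∀ i, x i = 1 → y i = 1) ∧
      (∀ i j k, x k = x i + x j → y k = y i + y j) := by
  obtain ⟨y, h1, h2, h3⟩ := U280.SmallSol.main n x
  exact ⟨y, h1, h2, fun i j k h => (h3 i j k h.symm).symm⟩

end Pool.Agent.Results.MP_80f852_al.SmallSolution
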